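import Pool.Agent.H70.TIE.Stmts
import Pool.Agent.H20.MT.Rho
import Pool.Agent.H85.MTA.THPSI

/-!
# Project TIE, module LIP: removal of the weights
-/

set_option autoImplicit false

namespace TIE
open Finset MTA Filter Topology

/-- the difference of the indicators of the primes of two classes -/
noncomputable def sg (q a b n : ℕ) : ℝ :=
  ((if n ≡ a [MOD q] then 1 else 0) - (if n ≡ b [MOD q] then 1 else 0)) *
    (if n.Prime then 1 else 0)

theorem sg_abs (q a b n : ℕ) : |sg q a b n| ≤ 1 := by
  unfold sg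
  split_ifs <;> simp

theorem sg_np {q a b n : ℕ} (h : ¬ n.Prime) : sg q a b n = 0 := by
  unfold sg
  rw [if_neg h, mul_zero]

theorem Dn_eq (q a b n : ℕ) : ((Dn q a b n : ℤ) : ℝ) = ∑ k ∈ Ioc 0 n, sg q a b k := by
  have h1 : Ioc 0 n = Icc 1 n := by
    ext k
    simp [Nat.succ_le_iff]
  rw [h1]
  unfold Dn sg
  rw [card_filter, card_filter]
  push_cast
  rw [← sum_sub_distrib]
  refine sum_congr rfl fun k _ => ?_
  by_cases h2 : k.Prime <;> by_cases h3 : k ≡ a [MOD q] <;> by_cases h4 : k ≡ b [MOD q] <;>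
    simp [h2, h3, h4]

theorem Dn_sub (q a b y h : ℕ) : ((Dn q a b (y + h) - Dn q a b y : ℤ) : ℝ) =
    ∑ k ∈ Ioc y (y + h), sg q a b k := by
  rw [Int.cast_sub, Dn_eq, Dn_eq, ← sum_Ioc_consecutive (sg q a b) (Nat.zero_le y)
    (Nat.le_add_right y h)]
  ring

theorem fw_eq (q a b : ℕ) (x : ℝ) (n : ℕ) : fw q a b x n =
    sg q a b n * (Real.log n * rho (Real.log (((n : ℝ) - 1) / x))) := by
  unfold fw sg
  by_cases h2 : n.Prime <;> simp [h2]

/-- the numbers -/
theorem lip_num (A : ℕ) (K : ℝ) : ∃ x0 : ℝ, ∀ x : ℝ, x0 ≤ x → 10 ≤ x ∧ 1 ≤ Real.log x ∧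
    (Real.log x) ^ A ≤ x / 90 ∧
    (Real.log x) ^ A * ((Real.log x) ^ A * (10 + 20 * K * Real.log x)) ≤ x := by
  have h1 : ∀ n : ℕ, ∀ c : ℝ, 0 < c → ∀ᶠ x : ℝ in atTop, (Real.log x) ^ n ≤ c * x := by
    intro n c hc
    filter_upwards [(Real.isLittleO_pow_log_id_atTop (n := n)).def hc, eventually_ge_atTop 1]
      with x h2 h3
    have h4 : ‖(id x : ℝ)‖ = x := by
      rw [id, Real.norm_eq_abs, abs_of_nonneg (by linarith)]
    rw [h4, Real.norm_eq_abs] at h2
    exact (le_abs_self _).trans h2
  have h2 : ∀ᶠ x : ℝ in atTop, 10 ≤ x ∧ 1 ≤ Real.log x ∧ (Real.log x) ^ A ≤ x / 90 ∧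
      (Real.log x) ^ A * ((Real.log x) ^ A * (10 + 20 * K * Real.log x)) ≤ x := by
    filter_upwards [eventually_ge_atTop 10, Real.tendsto_log_atTop.eventually_ge_atTop 1,
      h1 A (1 / 90) (by norm_num), h1 (A + A + 1) (1 / (10 + 20 * |K|)) (by positivity)]
      with x h2 h3 h4 h5
    refine ⟨h2, h3, by linarith, ?_⟩
    have h6 : 0 < Real.log x := by linarith
    have h7 : 10 + 20 * K * Real.log x ≤ (10 + 20 * |K|) * Real.log x := by
      have h8 : K * Real.log x ≤ |K| * Real.log x :=
        mul_le_mul_of_nonneg_right (le_abs_self K) h6.le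
      linarith
    have h8 : (Real.log x) ^ A * ((Real.log x) ^ A * (10 + 20 * K * Real.log x)) ≤
        (10 + 20 * |K|) * (Real.log x) ^ (A + A + 1) := by
      rw [pow_succ, pow_add]
      have h9 : 0 ≤ (Real.log x) ^ A := by positivity
      have h10 := mul_le_mul_of_nonneg_left (mul_le_mul_of_nonneg_left h7 h9) h9
      refine h10.trans (le_of_eq ?_)
      ring
    refine h8.trans ?_
    have h9 : (0 : ℝ) < 10 + 20 * |K| := by positivity
    have h10 := mul_le_mul_of_nonneg_left h5 h9.le
    refine h10.trans (le_of_eq ?_)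
    field_simp
  exact eventually_atTop.1 h2

theorem log_lip {u v : ℝ} (hu : 0 < u) (huv : u ≤ v) : Real.log v - Real.log u ≤ (v - u) / u := by
  rw [← Real.log_div (by linarith) hu.ne']
  refine (Real.log_le_sub_one_of_pos (div_pos (by linarith) hu)).trans (le_of_eq ?_)
  field_simp

/-- **Removal of the weights.** -/
theorem LIP : S_LIP := by
  intro A
  obtain ⟨K, hK0, hK⟩ := THPSI_lip
  obtain ⟨x0, hx0⟩ := lip_num A K
  refine ⟨x0, fun x hx q a b h y hh hhA hy => ?_⟩
  obtain ⟨h10, hl1, hlA, hnum⟩ := hx0 x hx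
  have hx1 : 0 < x := by linarith
  have hl0 : 0 < Real.log x := by linarith
  have hh1 : (1 : ℝ) ≤ h := by exact_mod_cast hh
  rw [Dn_sub]
  unfold Fh
  rcases le_or_gt (x / 10) y with hyx | hyx
  · -- the main case
    have hy0 : (0 : ℝ) < y := by linarith
    obtain ⟨w, hw⟩ : ∃ w : ℕ → ℝ, w = fun n : ℕ =>
      Real.log n * rho (Real.log (((n : ℝ) - 1) / x)) := ⟨_, rfl⟩
    have hfw : ∀ n, fw q a b x n = w (y + 1) * sg q a b n + sg q a b n * (w n - w (y + 1)) :=
      fun n => by
        rw [fw_eq, hw]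
        ring
    simp_rw [hfw]
    rw [sum_add_distrib, ← mul_sum]
    refine (abs_add_le _ _).trans (add_le_add ?_ ?_)
    · rw [abs_mul]
      refine mul_le_mul_of_nonneg_right ?_ (abs_nonneg _)
      have h1 : 0 ≤ Real.log ((y + 1 : ℕ) : ℝ) := Real.log_natCast_nonneg _
      have h2 := rho_nonneg (Real.log ((((y + 1 : ℕ) : ℝ) - 1) / x))
      have h3 := rho_le_one (Real.log ((((y + 1 : ℕ) : ℝ) - 1) / x))
      rw [hw]
      show |Real.log ((y + 1 : ℕ) : ℝ) * rho (Real.log ((((y + 1 : ℕ) : ℝ) - 1) / x))| ≤ _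
      rw [abs_of_nonneg (mul_nonneg h1 h2)]
      have h4 : Real.log ((y + 1 : ℕ) : ℝ) ≤ Real.log (x ^ 2) := by
        refine Real.log_le_log (by positivity) ?_
        push_cast
        nlinarith
      rw [Real.log_pow] at h4
      have h5 : Real.log ((y + 1 : ℕ) : ℝ) * rho (Real.log ((((y + 1 : ℕ) : ℝ) - 1) / x)) ≤
          Real.log ((y + 1 : ℕ) : ℝ) * 1 := mul_le_mul_of_nonneg_left h3 h1
      push_cast at h4 h5 ⊢
      linarith
    · -- the error
      have hterm : ∀ n ∈ Ioc y (y + h), |sg q a b n * (w n - w (y + 1))| ≤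
          h * (10 + 20 * K * Real.log x) / x := by
        intro n hn
        rw [mem_Ioc] at hn
        have hn1 : ((y : ℝ) + 1) ≤ n := by exact_mod_cast hn.1
        have hn2 : (n : ℝ) ≤ y + h := by exact_mod_cast hn.2
        rw [abs_mul]
        have h1 : |w n - w (y + 1)| ≤ h * (10 + 20 * K * Real.log x) / x := by
          rw [hw]
          show |Real.log n * rho (Real.log (((n : ℝ) - 1) / x)) -
            Real.log ((y + 1 : ℕ) : ℝ) * rho (Real.log ((((y + 1 : ℕ) : ℝ) - 1) / x))| ≤ _
          push_cast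
          rw [show (y : ℝ) + 1 - 1 = y by ring]
          obtain ⟨R₁, hR₁⟩ : ∃ R₁, R₁ = rho (Real.log (((n : ℝ) - 1) / x)) := ⟨_, rfl⟩
          obtain ⟨R₂, hR₂⟩ : ∃ R₂, R₂ = rho (Real.log ((y : ℝ) / x)) := ⟨_, rfl⟩
          have h2 : 0 ≤ R₁ := by rw [hR₁]; exact rho_nonneg _
          have h3 : R₁ ≤ 1 := by rw [hR₁]; exact rho_le_one _
          have h4 : |R₁ - R₂| ≤ K * (10 * h / x) := by
            rw [hR₁, hR₂]
            refine (hK _ _).trans (mul_le_mul_of_nonneg_left ?_ hK0)
            rw [Real.log_div (by linarith) hx1.ne', Real.log_div hy0.ne' hx1.ne',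
              sub_sub_sub_cancel_right, abs_of_nonneg (sub_nonneg.2
                (Real.log_le_log hy0 (by linarith)))]
            refine (log_lip hy0 (by linarith)).trans ?_
            rw [div_le_div_iff₀ hy0 hx1]
            nlinarith
          have h5 : 0 ≤ Real.log n - Real.log ((y : ℝ) + 1) :=
            sub_nonneg.2 (Real.log_le_log (by linarith) hn1)
          have h6 : Real.log n - Real.log ((y : ℝ) + 1) ≤ 10 * h / x := by
            refine (log_lip (by linarith) hn1).trans ?_
            rw [div_le_div_iff₀ (by linarith) hx1]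
            nlinarith
          have h7 : 0 ≤ Real.log ((y : ℝ) + 1) := Real.log_nonneg (by linarith)
          have h8 : Real.log ((y : ℝ) + 1) ≤ 2 * Real.log x := by
            have h9 : Real.log ((y : ℝ) + 1) ≤ Real.log (x ^ 2) := by
              refine Real.log_le_log (by positivity) ?_
              nlinarith
            rw [Real.log_pow] at h9
            push_cast at h9
            exact h9
          rw [← hR₁, ← hR₂]
          have e1 : Real.log n * R₁ - Real.log ((y : ℝ) + 1) * R₂ =
            (Real.log n - Real.log ((y : ℝ) + 1)) * R₁ + Real.log ((y : ℝ) + 1) * (R₁ - R₂) := by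
            ring
          rw [e1]
          refine (abs_add_le _ _).trans ?_
          rw [abs_mul, abs_mul, abs_of_nonneg h5, abs_of_nonneg h2, abs_of_nonneg h7]
          have h9 : (Real.log n - Real.log ((y : ℝ) + 1)) * R₁ ≤ 10 * h / x * 1 :=
            mul_le_mul h6 h3 h2 (by positivity)
          have h10 : Real.log ((y : ℝ) + 1) * |R₁ - R₂| ≤ 2 * Real.log x * (K * (10 * h / x)) :=
            mul_le_mul h8 h4 (abs_nonneg _) (by positivity)
          refine (add_le_add h9 h10).trans (le_of_eq ?_)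
          field_simp
          ring
        calc |sg q a b n| * |w n - w (y + 1)| ≤ 1 * (h * (10 + 20 * K * Real.log x) / x) :=
              mul_le_mul (sg_abs _ _ _ _) h1 (abs_nonneg _) zero_le_one
          _ = _ := one_mul _
      refine (abs_sum_le_sum_abs _ _).trans ((sum_le_sum hterm).trans ?_)
      rw [sum_const, Nat.card_Ioc, nsmul_eq_mul, Nat.add_sub_cancel_left, ← mul_div_assoc,
        div_le_one hx1]
      have h1 : (0 : ℝ) ≤ 10 + 20 * K * Real.log x := by positivity
      have h2 : (h : ℝ) * (10 + 20 * K * Real.log x) ≤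
          (Real.log x) ^ A * (10 + 20 * K * Real.log x) := mul_le_mul_of_nonneg_right hhA h1
      refine (mul_le_mul hhA h2 (by positivity) (by positivity)).trans hnum
  · -- no weight
    have h0 : ∑ n ∈ Ioc y (y + h), fw q a b x n = 0 := by
      refine sum_eq_zero fun n hn => ?_
      rw [mem_Ioc] at hn
      rw [fw_eq]
      by_cases hp : n.Prime
      · have hn2 : (n : ℝ) ≤ y + h := by exact_mod_cast hn.2
        have hn1 : (2 : ℝ) ≤ n := by exact_mod_cast hp.two_le
        have h1 : Real.log (((n : ℝ) - 1) / x) ≤ -2 := by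
          have h2 : ((n : ℝ) - 1) / x ≤ 1 / 8 := by
            rw [div_le_iff₀ hx1]
            linarith
          have h3 : Real.log (((n : ℝ) - 1) / x) ≤ Real.log (1 / 8) :=
            Real.log_le_log (div_pos (by linarith) hx1) h2
          have h4 : Real.log (1 / 8) = -(3 * Real.log 2) := by
            rw [one_div, Real.log_inv, show (8 : ℝ) = 2 ^ 3 by norm_num, Real.log_pow]
            norm_num
          have h5 := Real.log_two_gt_d9
          linarith
        rw [rho_zero (by rw [abs_of_nonpos (by linarith)]; linarith), mul_zero, mul_zero]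
      · rw [sg_np hp, zero_mul]
    rw [h0, abs_zero]
    positivity

end TIE
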